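import Pool.Agent.V1166.UD.Inv
import Pool.Agent.Helper240.Amen.HB

/-!
A finitely generated solvable group whose finite subgroups are `p`-groups and whose group algebras
have infinite uniform dimension.
-/

set_option autoImplicit false

open scoped commutatorElement

namespace Pool.Agent.V1166.UD

noncomputable section

/-- The triple `(m, f, h)` stands for the permutation
`(n, x, y) ↦ (n + m, x + f n, y + h n x)` of `ℤ × ℤ/p × ℤ`. -/
@[ext]
structure Tri (p : ℕ) where
  m : ℤ
  f : ℤ → ZMod p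
  h : ℤ → ZMod p → ℤ

namespace Tri

variable {p : ℕ}

instance : Mul (Tri p) :=
  ⟨fun a b => ⟨b.m + a.m, fun n => b.f n + a.f (n + b.m),
    fun n x => b.h n x + a.h (n + b.m) (x + b.f n)⟩⟩

instance : One (Tri p) := ⟨⟨0, fun _ => 0, fun _ _ => 0⟩⟩

instance : Inv (Tri p) :=
  ⟨fun a => ⟨-a.m, fun n => -a.f (n - a.m), fun n x => -a.h (n - a.m) (x - a.f (n - a.m))⟩⟩

@[simp] theorem mul_m (a b : Tri p) : (a * b).m = b.m + a.m := rfl
@[simp] theorem mul_f (a b : Tri p) (n : ℤ) : (a * b).f n = b.f n + a.f (n + b.m) := rfl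
@[simp] theorem mul_h (a b : Tri p) (n : ℤ) (x : ZMod p) :
    (a * b).h n x = b.h n x + a.h (n + b.m) (x + b.f n) := rfl
@[simp] theorem one_m : (1 : Tri p).m = 0 := rfl
@[simp] theorem one_f (n : ℤ) : (1 : Tri p).f n = 0 := rfl
@[simp] theorem one_h (n : ℤ) (x : ZMod p) : (1 : Tri p).h n x = 0 := rfl
@[simp] theorem inv_m (a : Tri p) : (a⁻¹).m = -a.m := rfl
@[simp] theorem inv_f (a : Tri p) (n : ℤ) : (a⁻¹).f n = -a.f (n - a.m) := rfl
@[simp] theorem inv_h (a : Tri p) (n : ℤ) (x : ZMod p) :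
    (a⁻¹).h n x = -a.h (n - a.m) (x - a.f (n - a.m)) := rfl

theorem ext' {a b : Tri p} (h1 : a.m = b.m) (h2 : ∀ n, a.f n = b.f n)
    (h3 : ∀ n x, a.h n x = b.h n x) : a = b :=
  Tri.ext h1 (funext h2) (funext fun n => funext fun x => h3 n x)

instance : Group (Tri p) :=
  Group.ofLeftAxioms
    (by
      intro a b c
      refine ext' ?_ ?_ ?_
      · simp only [mul_m]; ring
      · intro n
        simp only [mul_f, mul_m]
        rw [add_assoc n, add_assoc]
      · intro n x
        simp only [mul_h, mul_f, mul_m]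
        rw [add_assoc n, add_assoc x]
        ring)
    (by
      intro a
      refine ext' ?_ ?_ ?_
      · simp
      · intro n; simp
      · intro n x; simp)
    (by
      intro a
      refine ext' ?_ ?_ ?_
      · simp
      · intro n; simp
      · intro n x; simp)

/-- elements with `m = 0` -/
def N1 (p : ℕ) : Subgroup (Tri p) where
  carrier := {a | a.m = 0}
  mul_mem' := by
    intro a b (ha : a.m = 0) (hb : b.m = 0)
    show (a * b).m = 0
    simp [ha, hb]
  one_mem' := rfl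
  inv_mem' := by
    intro a (ha : a.m = 0)
    show (a⁻¹).m = 0
    simp [ha]

/-- elements with `m = 0` and `f = 0` -/
def N2 (p : ℕ) : Subgroup (Tri p) where
  carrier := {a | a.m = 0 ∧ ∀ n, a.f n = 0}
  mul_mem' := by
    rintro a b ⟨ha, ha'⟩ ⟨hb, hb'⟩
    exact ⟨by simp [ha, hb], fun n => by simp [ha', hb']⟩
  one_mem' := ⟨rfl, fun _ => rfl⟩
  inv_mem' := by
    rintro a ⟨ha, ha'⟩
    exact ⟨by simp [ha], fun n => by simp [ha']⟩

theorem mem_N1 {a : Tri p} : a ∈ N1 p ↔ a.m = 0 := Iff.rfl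

theorem mem_N2 {a : Tri p} : a ∈ N2 p ↔ a.m = 0 ∧ ∀ n, a.f n = 0 := Iff.rfl

theorem derived3 (p : ℕ) : derivedSeries (Tri p) 3 = ⊥ := by
  have h1 : derivedSeries (Tri p) 1 ≤ N1 p := by
    rw [derivedSeries_succ, Subgroup.commutator_le]
    intro a _ b _
    rw [mem_N1, commutatorElement_def]
    simp
  have h2 : derivedSeries (Tri p) 2 ≤ N2 p := by
    rw [derivedSeries_succ, Subgroup.commutator_le]
    intro a ha b hb
    have ha' := mem_N1.mp (h1 ha)
    have hb' := mem_N1.mp (h1 hb)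
    rw [mem_N2, commutatorElement_def]
    refine ⟨by simp, fun n => ?_⟩
    simp only [mul_f, inv_f, mul_m, inv_m, ha', hb']
    simp
  rw [derivedSeries_succ, eq_bot_iff, Subgroup.commutator_le]
  intro a ha b hb
  obtain ⟨ha1, ha2⟩ := mem_N2.mp (h2 ha)
  obtain ⟨hb1, hb2⟩ := mem_N2.mp (h2 hb)
  rw [Subgroup.mem_bot, commutatorElement_def]
  refine ext' (by simp) (fun n => ?_) (fun n x => ?_)
  · simp only [mul_f, inv_f, mul_m, inv_m, ha1, hb1, ha2, hb2]
    simp
  · simp only [mul_h, inv_h, mul_f, inv_f, mul_m, inv_m, ha1, hb1, ha2, hb2]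
    simp

theorem pow_m (a : Tri p) (k : ℕ) : (a ^ k).m = k * a.m := by
  induction k with
  | zero => simp
  | succ k ih => rw [pow_succ, mul_m, ih]; push_cast; ring

theorem pow_f (a : Tri p) (ha : a.m = 0) (k : ℕ) (n : ℤ) : (a ^ k).f n = k * a.f n := by
  induction k with
  | zero => simp
  | succ k ih => rw [pow_succ, mul_f, ha, add_zero, ih]; push_cast; ring

theorem pow_h (a : Tri p) (ha : a.m = 0) (ha' : ∀ n, a.f n = 0) (k : ℕ) (n : ℤ) (x : ZMod p) :
    (a ^ k).h n x = k * a.h n x := by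
  induction k with
  | zero => simp
  | succ k ih => rw [pow_succ, mul_h, ha, ha', add_zero, add_zero, ih]; push_cast; ring

/-- elements of finite order are killed by `p` -/
theorem pow_p {a : Tri p} (ha : IsOfFinOrder a) : a ^ p = 1 := by
  obtain ⟨n, hn, h1⟩ := isOfFinOrder_iff_pow_eq_one.mp ha
  have hn' : (n : ℤ) ≠ 0 := by exact_mod_cast hn.ne'
  have hm : a.m = 0 := by
    have := congrArg Tri.m h1
    rw [pow_m, one_m] at this
    exact (mul_eq_zero.mp this).resolve_left hn'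
  have hf : ∀ j, (a ^ p).f j = 0 := by
    intro j
    rw [pow_f _ hm, CharP.cast_eq_zero, zero_mul]
  have hm' : (a ^ p).m = 0 := by rw [pow_m, hm, mul_zero]
  have h2 : (a ^ p) ^ n = 1 := by rw [← pow_mul, mul_comm, pow_mul, h1, one_pow]
  refine ext' hm' hf fun j x => ?_
  have := congrArg (fun b : Tri p => b.h j x) h2
  simp only [one_h] at this
  rw [pow_h _ hm' hf] at this
  rw [one_h]
  exact (mul_eq_zero.mp this).resolve_left hn'

/-! The generators -/

/-- the shift -/
def S (p : ℕ) : Tri p := ⟨1, fun _ => 0, fun _ _ => 0⟩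

/-- rotation of the `i`-th copy of `ℤ/p` -/
def T (p : ℕ) (i : ℕ) : Tri p := ⟨0, fun n => if n = i then 1 else 0, fun _ _ => 0⟩

/-- translation over the origin of the `i`-th copy -/
def V (p : ℕ) (i : ℕ) : Tri p := ⟨0, fun _ => 0, fun n x => if n = i ∧ x = 0 then 1 else 0⟩

/-- the product of the first `i` of them -/
def W (p : ℕ) (i : ℕ) : Tri p :=
  ⟨0, fun _ => 0, fun n x => if 0 ≤ n ∧ n < i ∧ x = 0 then 1 else 0⟩

/-- the group -/
def GG (p : ℕ) : Subgroup (Tri p) := Subgroup.closure {S p, T p 0, V p 0}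

theorem S_mem : S p ∈ GG p := Subgroup.subset_closure (by simp)

theorem T_succ (i : ℕ) : T p (i + 1) = S p * T p i * (S p)⁻¹ := by
  refine ext' ?_ ?_ ?_
  · simp [S, T]
  · intro n
    simp only [S, T, mul_f, mul_m, inv_f, inv_m]
    have : (n = (i : ℤ) + 1) ↔ (n + -1 = (i : ℤ)) := by omega
    simp [this]
  · intro n x
    simp [S, T]

theorem V_succ (i : ℕ) : V p (i + 1) = S p * V p i * (S p)⁻¹ := by
  refine ext' ?_ ?_ ?_
  · simp [S, V]
  · intro n
    simp [S, V]
  · intro n x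
    simp only [S, V, mul_h, mul_f, mul_m, inv_h, inv_f, inv_m]
    have : (n = (i : ℤ) + 1) ↔ (n + -1 = (i : ℤ)) := by omega
    simp [this]

theorem W_succ (i : ℕ) : W p (i + 1) = W p i * V p i := by
  refine ext' ?_ ?_ ?_
  · simp [W, V]
  · intro n
    simp [W, V]
  · intro n x
    simp only [W, V, mul_h, mul_f, mul_m]
    push_cast
    by_cases hx : x = 0
    · by_cases h1 : n = i
      · subst h1
        simp [hx]
      · have : (0 ≤ n ∧ n < (i : ℤ) + 1) ↔ (0 ≤ n ∧ n < (i : ℤ)) := by omega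
        by_cases h2 : 0 ≤ n ∧ n < (i : ℤ)
        · have h3 : 0 ≤ n ∧ n < (i : ℤ) + 1 := this.mpr h2
          simp [hx, h1, h2, h3.2]
        · have h3 : ¬ (0 ≤ n ∧ n < (i : ℤ) + 1) := fun h => h2 (this.mp h)
          simp only [hx, h1, and_true, false_and, if_false, add_zero, zero_add]
          rw [if_neg h3, if_neg h2]
    · simp [hx]

theorem T_mem (i : ℕ) : T p i ∈ GG p := by
  induction i with
  | zero => exact Subgroup.subset_closure (by simp)
  | succ i ih =>
    rw [T_succ]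
    exact (GG p).mul_mem ((GG p).mul_mem S_mem ih) ((GG p).inv_mem S_mem)

theorem V_mem (i : ℕ) : V p i ∈ GG p := by
  induction i with
  | zero => exact Subgroup.subset_closure (by simp)
  | succ i ih =>
    rw [V_succ]
    exact (GG p).mul_mem ((GG p).mul_mem S_mem ih) ((GG p).inv_mem S_mem)

theorem W_mem (i : ℕ) : W p i ∈ GG p := by
  induction i with
  | zero =>
    have : W p 0 = 1 := by
      refine ext' rfl (fun n => rfl) fun n x => ?_
      simp only [W, one_h]
      rw [if_neg]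
      push_cast
      omega
    rw [this]
    exact (GG p).one_mem
  | succ i ih =>
    rw [W_succ]
    exact (GG p).mul_mem ih (V_mem i)

/-- the second element of the `i`-th pair -/
def B (p : ℕ) (i : ℕ) : Tri p :=
  ⟨0, fun n => if n = i then 1 else 0,
    fun n x => if n = i then (if x + 1 = 0 then 1 else 0) - (if x = 0 then 1 else 0) else 0⟩

theorem conj_lt {i j : ℕ} (hij : i < j) : W p j * T p i * (W p j)⁻¹ = B p i := by
  refine ext' ?_ ?_ ?_
  · simp [W, T, B]
  · intro n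
    simp [W, T, B]
  · intro n x
    simp only [W, T, B, mul_h, mul_f, mul_m, inv_h, inv_f, inv_m]
    by_cases hn : n = i
    · subst hn
      have h1 : (0 : ℤ) ≤ i ∧ (i : ℤ) < j := ⟨by omega, by omega⟩
      simp [h1.1, h1.2]
      ring
    · simp [hn]

theorem conj_ge {i j : ℕ} (hij : j ≤ i) : W p j * T p i * (W p j)⁻¹ = T p i := by
  refine ext' ?_ ?_ ?_
  · simp [W, T]
  · intro n
    simp [W, T]
  · intro n x
    simp only [W, T, mul_h, mul_f, mul_m, inv_h, inv_f, inv_m]
    by_cases hn : n = i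
    · subst hn
      have h1 : ¬ ((i : ℤ) < j) := by omega
      simp [h1]
    · simp [hn]

theorem B_mem (i : ℕ) : B p i ∈ GG p := by
  rw [← conj_lt (Nat.lt_succ_self i)]
  exact (GG p).mul_mem ((GG p).mul_mem (W_mem _) (T_mem _)) ((GG p).inv_mem (W_mem _))

theorem infOrder (hp : p.Prime) (i : ℕ) : ¬ IsOfFinOrder (B p i * (T p i)⁻¹) := by
  intro hfin
  obtain ⟨n, hn, h1⟩ := isOfFinOrder_iff_pow_eq_one.mp hfin
  have hn' : (n : ℤ) ≠ 0 := by exact_mod_cast hn.ne'
  have hm : (B p i * (T p i)⁻¹).m = 0 := by simp [B, T]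
  have hf : ∀ j, (B p i * (T p i)⁻¹).f j = 0 := by
    intro j
    simp [B, T]
  have := congrArg (fun b : Tri p => b.h i 0) h1
  simp only [one_h] at this
  rw [pow_h _ hm hf] at this
  have h2 := (mul_eq_zero.mp this).resolve_left hn'
  haveI : Fact p.Prime := ⟨hp⟩
  simp [B, T] at h2

/-- the elements supported on the first `i + 1` copies of `ℤ/p` -/
def E (p : ℕ) (i : ℕ) : Subgroup (Tri p) where
  carrier := {a | a.m = 0 ∧ (∀ n x, a.h n x = 0) ∧ ∀ n, (n < 0 ∨ (i : ℤ) < n) → a.f n = 0}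
  mul_mem' := by
    rintro a b ⟨ha, ha', ha''⟩ ⟨hb, hb', hb''⟩
    refine ⟨by simp [ha, hb], fun n x => by simp [ha', hb'], fun n hn => ?_⟩
    rw [mul_f, hb, add_zero, ha'' n hn, hb'' n hn, add_zero]
  one_mem' := ⟨rfl, fun _ _ => rfl, fun _ _ => rfl⟩
  inv_mem' := by
    rintro a ⟨ha, ha', ha''⟩
    refine ⟨by simp [ha], fun n x => by simp [ha'], fun n hn => ?_⟩
    rw [inv_f, ha, sub_zero, ha'' n hn, neg_zero]

instance finite_E [NeZero p] (i : ℕ) : Finite (E p i) := by
  have hinj : Function.Injective fun (a : E p i) (j : Fin (i + 1)) => a.1.f (j : ℕ) := by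
    rintro ⟨a, ha, ha', ha''⟩ ⟨b, hb, hb', hb''⟩ hab
    apply Subtype.ext
    refine ext' (ha.trans hb.symm) (fun n => ?_) fun n x => (ha' n x).trans (hb' n x).symm
    by_cases hn : n < 0 ∨ (i : ℤ) < n
    · exact (ha'' n hn).trans (hb'' n hn).symm
    · push Not at hn
      obtain ⟨h1, h2⟩ := hn
      lift n to ℕ using h1
      have h3 : n < i + 1 := by omega
      have := congrFun hab ⟨n, h3⟩
      exact this
  exact Finite.of_injective _ hinj

/-- the finite subgroups -/
def F (p : ℕ) (i : ℕ) : Subgroup (GG p) :=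
  ((E p i).map (MulAut.conj (W p i)).toMonoidHom).subgroupOf (GG p)

instance finite_F [NeZero p] (i : ℕ) : Finite (F p i) := by
  have h1 : Finite ((E p i).map (MulAut.conj (W p i)).toMonoidHom) :=
    Finite.of_surjective (fun a : E p i => (⟨(MulAut.conj (W p i)).toMonoidHom a.1,
      ⟨a.1, a.2, rfl⟩⟩ : (E p i).map (MulAut.conj (W p i)).toMonoidHom)) (by
        rintro ⟨_, a, ha, rfl⟩
        exact ⟨⟨a, ha⟩, rfl⟩)
  refine Finite.of_injective (fun a : F p i =>
    (⟨a.1.1, a.2⟩ : (E p i).map (MulAut.conj (W p i)).toMonoidHom)) ?_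
  intro a b hab
  have h2 : (a.1.1 : Tri p) = b.1.1 := congrArg (fun z => (z.1 : Tri p)) hab
  exact Subtype.ext (Subtype.ext h2)

theorem T_mem_E {i j : ℕ} (hij : i ≤ j) : T p i ∈ E p j := by
  refine ⟨rfl, fun _ _ => rfl, fun n hn => ?_⟩
  show (if n = (i : ℤ) then (1 : ZMod p) else 0) = 0
  rw [if_neg]
  omega

theorem T_mem_F (i : ℕ) : (⟨T p i, T_mem i⟩ : GG p) ∈ F p i :=
  ⟨T p i, T_mem_E le_rfl, conj_ge le_rfl⟩

theorem B_mem_F {i j : ℕ} (hij : i < j) : (⟨B p i, B_mem i⟩ : GG p) ∈ F p j :=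
  ⟨T p i, T_mem_E hij.le, conj_lt hij⟩

theorem indep (hp : p.Prime) (k : Type*) [Field k] : iSupIndep fun i => inv k (F p i) := by
  refine UD.indep (F p) (fun i => ⟨T p i, T_mem i⟩) (fun i => ⟨B p i, B_mem i⟩) T_mem_F
    (fun i j hij => B_mem_F hij) fun i hfin => ?_
  apply infOrder hp i
  exact Submonoid.isOfFinOrder_coe.mpr hfin

theorem pgroup (H : Subgroup (GG p)) [Finite H] : IsPGroup p H := by
  rintro ⟨⟨g, hg⟩, hgH⟩
  refine ⟨1, ?_⟩
  have h1 : IsOfFinOrder (⟨⟨g, hg⟩, hgH⟩ : H) := isOfFinOrder_of_finite _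
  have h2 : IsOfFinOrder (⟨g, hg⟩ : GG p) := Submonoid.isOfFinOrder_coe.mpr h1
  have h3 : IsOfFinOrder g := Submonoid.isOfFinOrder_coe.mpr h2
  rw [pow_one]
  exact Subtype.ext (Subtype.ext (pow_p h3))

end Tri

end

end Pool.Agent.V1166.UD
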