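import Mathlib

/-!
Right ideals of left invariant elements of a group algebra.
-/

set_option autoImplicit false

namespace Pool.Agent.V1166.UD

open MonoidAlgebra

noncomputable section

universe u v

variable {k : Type u} [Field k] {G : Type v} [Group G]

/-- the right ideal of the elements of `k[G]` which are invariant under left multiplication by the
elements of the subgroup `F` -/
def inv (k : Type u) [Field k] (F : Subgroup G) :
    Submodule (MonoidAlgebra k G)ᵐᵒᵖ (MonoidAlgebra k G) where
  carrier := {x | ∀ g ∈ F, MonoidAlgebra.of k G g * x = x}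
  add_mem' := by
    intro x y hx hy g hg
    rw [mul_add, hx g hg, hy g hg]
  zero_mem' := by
    intro g _
    rw [mul_zero]
  smul_mem' := by
    intro a x hx g hg
    rw [← MulOpposite.op_unop a, op_smul_eq_mul, ← mul_assoc, hx g hg]

theorem mem_inv {F : Subgroup G} {x : MonoidAlgebra k G} :
    x ∈ inv k F ↔ ∀ g ∈ F, MonoidAlgebra.of k G g * x = x := Iff.rfl

/-- for a finite subgroup this right ideal is nonzero -/
theorem inv_ne_bot (F : Subgroup G) [Finite F] : inv k F ≠ ⊥ := by
  classical
  have : Fintype F := Fintype.ofFinite F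
  have hmem : (∑ g : F, MonoidAlgebra.of k G (g : G)) ∈ inv k F := by
    intro h hh
    rw [Finset.mul_sum]
    refine Fintype.sum_equiv (Equiv.mulLeft (⟨h, hh⟩ : F)) _ _ ?_
    intro g
    show _ = MonoidAlgebra.of k G (h * (g : G))
    rw [map_mul]
  intro h0
  rw [h0, Submodule.mem_bot] at hmem
  have h1 : (∑ g : F, MonoidAlgebra.of k G (g : G)).coeff 1 = 1 := by
    rw [MonoidAlgebra.coeff_sum, Finsupp.finset_sum_apply, Finset.sum_eq_single (1 : F)]
    · rw [MonoidAlgebra.of_apply, MonoidAlgebra.coeff_single, Finsupp.single_apply, if_pos]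
      rfl
    · intro g _ hg
      rw [MonoidAlgebra.of_apply, MonoidAlgebra.coeff_single, Finsupp.single_apply, if_neg]
      exact fun h => hg (Subtype.ext h)
    · intro h
      exact absurd (Finset.mem_univ _) h
  rw [hmem] at h1
  simp at h1

/-- an element of `k[G]` fixed by left multiplication by an element of infinite order is zero -/
theorem eq_zero_of_fixed {c : G} (hc : ¬ IsOfFinOrder c) {x : MonoidAlgebra k G}
    (h : MonoidAlgebra.of k G c * x = x) : x = 0 := by
  by_contra hx
  obtain ⟨g, hg⟩ : ∃ g, x.coeff g ≠ 0 := by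
    by_contra hne
    push Not at hne
    exact hx (MonoidAlgebra.ext (Finsupp.ext hne))
  have h1 : ∀ n : ℕ, x.coeff (c ^ n * g) ≠ 0 := by
    intro n
    have h2 : MonoidAlgebra.of k G (c ^ n) * x = x := by
      induction n with
      | zero => rw [pow_zero, map_one, one_mul]
      | succ n ih => rw [pow_succ, map_mul, mul_assoc, h, ih]
    have h3 := congrArg (fun y : MonoidAlgebra k G => y.coeff (c ^ n * g)) h2
    simp only [MonoidAlgebra.of_apply, MonoidAlgebra.coeff_single_mul_mul, one_mul] at h3
    rw [← h3]
    exact hg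
  have hinj : Function.Injective fun n : ℕ => c ^ n * g := by
    intro m n hmn
    exact (injective_pow_iff_not_isOfFinOrder.mpr hc) (mul_right_cancel hmn)
  exact Set.infinite_of_injective_forall_mem (s := {y | x.coeff y ≠ 0}) hinj h1
    (x.coeff.support.finite_toSet.subset fun y hy => by simpa using hy)

/-- The basic independence criterion. -/
theorem indep (F : ℕ → Subgroup G) (a b : ℕ → G) (ha : ∀ i, a i ∈ F i)
    (hb : ∀ i j, i < j → b i ∈ F j) (hc : ∀ i, ¬ IsOfFinOrder (b i * (a i)⁻¹)) :
    iSupIndep fun i => inv k (F i) := by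
  rw [iSupIndep_iff_finsetSum_eq_zero_imp_eq_zero]
  intro s v hv hs
  have key : ∀ i, i ∈ s → (∀ j ∈ s, j < i → v j = 0) → v i = 0 := by
    intro i hi hlt
    have h1 : v i + ∑ j ∈ s.erase i, v j = 0 := by
      rw [Finset.add_sum_erase _ _ hi]
      exact hs
    have h2 : MonoidAlgebra.of k G (b i) * v i = v i := by
      have h3 : v i = -∑ j ∈ s.erase i, v j := eq_neg_of_add_eq_zero_left h1
      rw [h3, mul_neg, Finset.mul_sum]
      congr 1
      refine Finset.sum_congr rfl fun j hj => ?_
      rw [Finset.mem_erase] at hj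
      rcases lt_or_gt_of_ne hj.1 with hlt' | hgt
      · rw [hlt j hj.2 hlt', mul_zero]
      · exact hv j hj.2 _ (hb i j hgt)
    apply eq_zero_of_fixed (hc i)
    rw [map_mul, mul_assoc, hv i hi _ ((F i).inv_mem (ha i)), h2]
  intro i
  induction i using Nat.strong_induction_on with
  | _ i ih =>
    intro hi
    exact key i hi fun j hj hlt => ih j hlt hj

end

end Pool.Agent.V1166.UD
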